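import Pool.Agent.Helper33.QB.Defs

/-!
# Project QB, module A1: paths and the free group
-/

set_option autoImplicit false

namespace Pool.Agent.Helper33.QB

open Set

universe v

variable {Ω : Type} {I : Type v}

section A1

variable {G G' : I → Ω → Ω → Prop} {g h : FreeGroup I} {x y z : Ω}

theorem Acts.trans (h1 : Acts G h x y) (h2 : Acts G g y z) : Acts G (g * h) x z := by
  induction h2 with
  | one _ => rwa [one_mul]
  | fwd _ e ih => rw [mul_assoc]; exact .fwd (ih h1) e
  | bwd _ e ih => rw [mul_assoc]; exact .bwd (ih h1) e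

theorem Acts.inv (h1 : Acts G g x y) : Acts G g⁻¹ y x := by
  induction h1 with
  | one _ => rw [inv_one]; exact .one _
  | fwd _ e ih =>
    rw [mul_inv_rev]
    have h2 := Acts.bwd (Acts.one (G := G) _) e
    rw [mul_one] at h2
    exact h2.trans ih
  | bwd _ e ih =>
    rw [mul_inv_rev, inv_inv]
    have h2 := Acts.fwd (Acts.one (G := G) _) e
    rw [mul_one] at h2
    exact h2.trans ih

theorem Acts.of {i : I} (h1 : G i x y) : Acts G (FreeGroup.of i) x y := by
  have h2 := Acts.fwd (Acts.one (G := G) x) h1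
  rwa [mul_one] at h2

theorem Acts.mono (hG : ∀ i x y, G i x y → G' i x y) (h1 : Acts G g x y) : Acts G' g x y := by
  induction h1 with
  | one _ => exact .one _
  | fwd _ e ih => exact .fwd ih (hG _ _ _ e)
  | bwd _ e ih => exact .bwd ih (hG _ _ _ e)

/-! Paths along a list of letters. The head of the list is the last step. -/

/-- One step of a path. -/
def A1Edge (G : I → Ω → Ω → Prop) (a : I × Bool) (z y : Ω) : Prop :=
  (a.2 = true ∧ G a.1 z y) ∨ (a.2 = false ∧ G a.1 y z)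

/-- There is a path along the list. -/
def A1Path (G : I → Ω → Ω → Prop) : List (I × Bool) → Ω → Ω → Prop
  | [], x, y => x = y
  | a :: t, x, y => ∃ z, A1Path G t x z ∧ A1Edge G a z y

theorem a1_append {L1 L2 : List (I × Bool)} : ∀ {x y : Ω},
    A1Path G (L1 ++ L2) x y ↔ ∃ z, A1Path G L2 x z ∧ A1Path G L1 z y := by
  induction L1 with
  | nil =>
    intro x y
    simp [A1Path]
  | cons a t ih =>
    intro x y
    simp only [List.cons_append, A1Path, ih]
    constructor
    · rintro ⟨z, ⟨w, h1, h2⟩, h3⟩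
      exact ⟨w, h1, z, h2, h3⟩
    · rintro ⟨w, h1, z, h2, h3⟩
      exact ⟨z, ⟨w, h1, h2⟩, h3⟩

theorem a1_acts : ∀ {L : List (I × Bool)} {x y : Ω}, A1Path G L x y →
    Acts G (FreeGroup.mk L) x y := by
  intro L
  induction L with
  | nil =>
    intro x y hxy
    rw [A1Path] at hxy
    subst hxy
    exact .one _
  | cons a t ih =>
    rintro x y ⟨z, h1, h2⟩
    obtain ⟨i, b⟩ := a
    have h3 : FreeGroup.mk ((i, b) :: t) = FreeGroup.mk [(i, b)] * FreeGroup.mk t := by
      rw [FreeGroup.mul_mk]; rfl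
    rw [h3]
    rcases h2 with ⟨rfl, h2⟩ | ⟨rfl, h2⟩
    · exact .fwd (ih h1) h2
    · exact .bwd (ih h1) h2

theorem a1_path (h1 : Acts G g x y) : ∃ L, FreeGroup.mk L = g ∧ A1Path G L x y := by
  induction h1 with
  | one _ => exact ⟨[], rfl, rfl⟩
  | fwd _ e ih =>
    obtain ⟨L, hL, hp⟩ := ih
    refine ⟨(_, true) :: L, ?_, _, hp, Or.inl ⟨rfl, e⟩⟩
    rw [← hL, FreeGroup.of, FreeGroup.mul_mk]; rfl
  | bwd _ e ih =>
    obtain ⟨L, hL, hp⟩ := ih
    refine ⟨(_, false) :: L, ?_, _, hp, Or.inr ⟨rfl, e⟩⟩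
    rw [← hL, FreeGroup.of, FreeGroup.inv_mk, FreeGroup.mul_mk]; rfl

theorem a1_step (hPF : PF G) {L1 L2 : List (I × Bool)} (hs : FreeGroup.Red.Step L1 L2)
    (hp : A1Path G L1 x y) : A1Path G L2 x y := by
  cases hs with
  | @not L1 L2 i b =>
    rw [a1_append] at hp ⊢
    obtain ⟨z, ⟨z1, ⟨z2, h1, h2⟩, h3⟩, h4⟩ := hp
    refine ⟨z, ?_, h4⟩
    have hz : z2 = z := by
      cases b with
      | true =>
        rcases h3 with ⟨-, h3⟩ | ⟨h3, -⟩
        · rcases h2 with ⟨h2, -⟩ | ⟨-, h2⟩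
          · cases h2
          · exact hPF.1 _ _ _ _ h2 h3
        · cases h3
      | false =>
        rcases h3 with ⟨h3, -⟩ | ⟨-, h3⟩
        · cases h3
        · rcases h2 with ⟨-, h2⟩ | ⟨h2, -⟩
          · exact hPF.2 _ _ _ _ h2 h3
          · cases h2
    rwa [hz] at h1

theorem a1_red (hPF : PF G) {L1 L2 : List (I × Bool)} (hs : FreeGroup.Red L1 L2)
    (hp : A1Path G L1 x y) : A1Path G L2 x y := by
  induction hs with
  | refl => exact hp
  | tail _ h2 ih => exact a1_step hPF h2 ih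

theorem a1_word [DecidableEq I] (hPF : PF G) : Acts G g x y ↔ A1Path G g.toWord x y := by
  constructor
  · intro h1
    obtain ⟨L, rfl, hp⟩ := a1_path h1
    rw [FreeGroup.toWord_mk]
    exact a1_red hPF FreeGroup.reduce.red hp
  · intro h1
    have h2 := a1_acts h1
    rwa [FreeGroup.mk_toWord] at h2

/-- The reduced word of `g` describes a path. -/
theorem Acts.uncons [DecidableEq I] (hPF : PF G) {a : I × Bool} {t : List (I × Bool)} (hw : g.toWord = a :: t)
    (h1 : Acts G g x y) :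
    ∃ z, Acts G (FreeGroup.mk t) x z ∧ ((a.2 = true ∧ G a.1 z y) ∨ (a.2 = false ∧ G a.1 y z)) := by
  rw [a1_word hPF, hw] at h1
  obtain ⟨z, h2, h3⟩ := h1
  exact ⟨z, a1_acts h2, h3⟩

theorem acts_one_eq (hPF : PF G) (h1 : Acts G 1 x y) : x = y := by
  classical
  rw [a1_word hPF, FreeGroup.toWord_one] at h1
  exact h1

theorem Acts.unique (hPF : PF G) (h1 : Acts G g x y) (h2 : Acts G g x z) : y = z := by
  have h3 := h1.inv.trans h2
  rw [mul_inv_cancel] at h3
  exact acts_one_eq hPF h3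

theorem Acts.unique' (hPF : PF G) (h1 : Acts G g x z) (h2 : Acts G g y z) : x = y := by
  have h3 := h1.trans h2.inv
  rw [inv_mul_cancel] at h3
  exact acts_one_eq hPF h3

theorem Acts.stay {A : Set Ω} (hA : ∀ i x y, G i x y → (x ∈ A ↔ y ∈ A)) (h1 : Acts G g x y) :
    x ∈ A ↔ y ∈ A := by
  induction h1 with
  | one _ => exact Iff.rfl
  | fwd _ e ih => exact ih.trans (hA _ _ _ e)
  | bwd _ e ih => exact ih.trans (hA _ _ _ e).symm

theorem Acts.restrict {A : Set Ω} (hA : ∀ i x y, G i x y → (x ∈ A ↔ y ∈ A)) (h1 : Acts G g x y)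
    (hx : x ∈ A) : Acts (fun i x y => G i x y ∧ x ∈ A) g x y := by
  induction h1 with
  | one _ => exact .one _
  | fwd h2 e ih => exact .fwd (ih hx) ⟨e, (h2.stay hA).1 hx⟩
  | bwd h2 e ih => exact .bwd (ih hx) ⟨e, (hA _ _ _ e).2 ((h2.stay hA).1 hx)⟩

theorem Acts.letters {S : Set I} (hS : ∀ i x y, G i x y → i ∈ S) (h1 : Acts G g x y) :
    g ∈ Subgroup.closure (FreeGroup.of '' S) := by
  induction h1 with
  | one _ => exact one_mem _
  | fwd _ e ih => exact mul_mem (Subgroup.subset_closure ⟨_, hS _ _ _ e, rfl⟩) ih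
  | bwd _ e ih =>
    exact mul_mem (inv_mem (Subgroup.subset_closure ⟨_, hS _ _ _ e, rfl⟩)) ih

theorem a1_over {S : Set I} (hg : g ∈ Subgroup.closure (FreeGroup.of '' S)) :
    ∃ L : List (I × Bool), FreeGroup.mk L = g ∧ ∀ a ∈ L, a.1 ∈ S := by
  induction hg using Subgroup.closure_induction with
  | mem x hx =>
    obtain ⟨i, hi, rfl⟩ := hx
    exact ⟨[(i, true)], rfl, by simpa using hi⟩
  | one => exact ⟨[], rfl, by simp⟩
  | mul x y _ _ ihx ihy =>
    obtain ⟨L, rfl, hL⟩ := ihx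
    obtain ⟨L', rfl, hL'⟩ := ihy
    refine ⟨L ++ L', by rw [FreeGroup.mul_mk], fun a ha => ?_⟩
    rcases List.mem_append.1 ha with ha | ha
    · exact hL a ha
    · exact hL' a ha
  | inv x _ ih =>
    obtain ⟨L, rfl, hL⟩ := ih
    refine ⟨FreeGroup.invRev L, by rw [FreeGroup.inv_mk], fun a ha => ?_⟩
    rw [FreeGroup.invRev, List.mem_reverse, List.mem_map] at ha
    obtain ⟨b, hb, rfl⟩ := ha
    exact hL b hb

theorem a1_sub {S : Set I} : ∀ {L : List (I × Bool)} {x y : Ω}, (∀ a ∈ L, a.1 ∈ S) →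
    A1Path G L x y → A1Path (fun i x y => G i x y ∧ i ∈ S) L x y := by
  intro L
  induction L with
  | nil => exact fun _ h => h
  | cons a t ih =>
    rintro x y hL ⟨z, h1, h2⟩
    refine ⟨z, ih (fun b hb => hL b (List.mem_cons_of_mem _ hb)) h1, ?_⟩
    have ha := hL a List.mem_cons_self
    rcases h2 with ⟨h2, h3⟩ | ⟨h2, h3⟩
    · exact Or.inl ⟨h2, h3, ha⟩
    · exact Or.inr ⟨h2, h3, ha⟩

/-- A word over `S` only needs the letters of `S`. -/
theorem Acts.over (hPF : PF G) {S : Set I} (hg : g ∈ Subgroup.closure (FreeGroup.of '' S))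
    (h1 : Acts G g x y) : Acts (fun i x y => G i x y ∧ i ∈ S) g x y := by
  classical
  obtain ⟨L, hL, hS⟩ := a1_over hg
  rw [a1_word hPF, ← hL, FreeGroup.toWord_mk] at h1
  have h2 := a1_acts (a1_sub (S := S) (fun a ha => hS a
    (FreeGroup.reduce.red.sublist.subset ha)) h1)
  rwa [FreeGroup.reduce.self, hL] at h2

theorem Free.mono (hG : ∀ i x y, G i x y → G' i x y) (hF : Free G') : Free G :=
  fun g x h => hF g x (h.mono hG)

theorem Proper.mono {R : Set (Set Ω)} (hG : ∀ i x y, G i x y → G' i x y) (hF : Proper R G') :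
    Proper R G := by
  intro K hK
  refine (hF K hK).subset ?_
  rintro g ⟨x, hx, y, hy, h1⟩
  exact ⟨x, hx, y, hy, h1.mono hG⟩

theorem a1_closed {Y : Set Ω} {R : Set (Set Ω)} (hC : ClSys Y R G) {C : Set Ω}
    (hC' : Cl Y R C) : ∀ L : List (I × Bool), Cl Y R {y | ∃ x ∈ C, A1Path G L x y} := by
  intro L
  induction L with
  | nil =>
    have h1 : {y | ∃ x ∈ C, A1Path G [] x y} = C := by
      ext y
      simp [A1Path]
    rwa [h1]
  | cons a t ih =>
    obtain ⟨i, b⟩ := a
    cases b with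
    | true =>
      have h1 : {y | ∃ x ∈ C, A1Path G ((i, true) :: t) x y} =
          {y | ∃ z ∈ {z | ∃ x ∈ C, A1Path G t x z}, G i z y} := by
        ext y
        constructor
        · rintro ⟨x, hx, z, h2, ⟨-, h3⟩ | ⟨h3, -⟩⟩
          · exact ⟨z, ⟨x, hx, h2⟩, h3⟩
          · cases h3
        · rintro ⟨z, ⟨x, hx, h2⟩, h3⟩
          exact ⟨x, hx, z, h2, Or.inl ⟨rfl, h3⟩⟩
      rw [h1]
      exact hC.2.1 i _ ih
    | false =>
      have h1 : {y | ∃ x ∈ C, A1Path G ((i, false) :: t) x y} =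
          {y | ∃ z ∈ {z | ∃ x ∈ C, A1Path G t x z}, G i y z} := by
        ext y
        constructor
        · rintro ⟨x, hx, z, h2, ⟨h3, -⟩ | ⟨-, h3⟩⟩
          · cases h3
          · exact ⟨z, ⟨x, hx, h2⟩, h3⟩
        · rintro ⟨z, ⟨x, hx, h2⟩, h3⟩
          exact ⟨x, hx, z, h2, Or.inr ⟨rfl, h3⟩⟩
      rw [h1]
      exact hC.2.2 i _ ih

/-- Images of closed sets under a fixed group element are closed. -/
theorem Acts.closed {Y : Set Ω} {R : Set (Set Ω)} (hPF : PF G) (hC : ClSys Y R G) {C : Set Ω}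
    (hC' : Cl Y R C) (g : FreeGroup I) : Cl Y R {y | ∃ x ∈ C, Acts G g x y} := by
  classical
  have h1 : {y | ∃ x ∈ C, Acts G g x y} = {y | ∃ x ∈ C, A1Path G g.toWord x y} := by
    ext y
    exact exists_congr fun x => and_congr_right fun _ => a1_word hPF
  rw [h1]
  exact a1_closed hC hC' _

/-- The number of elements of a countable group of words. -/
theorem countable_closure {S : Set I} (hS : S.Countable) :
    (Subgroup.closure (FreeGroup.of '' S) : Set (FreeGroup I)).Countable := by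
  have h1 : {L : List (I × Bool) | ∀ a ∈ L, a.1 ∈ S}.Countable := by
    have : Countable S := hS.to_subtype
    refine (Set.countable_range (List.map fun p : S × Bool => ((p.1 : I), p.2))).mono ?_
    intro L
    induction L with
    | nil => exact fun _ => ⟨[], rfl⟩
    | cons a t ih =>
      intro hL
      obtain ⟨t', ht'⟩ := ih fun b hb => hL b (List.mem_cons_of_mem _ hb)
      refine ⟨(⟨a.1, hL a List.mem_cons_self⟩, a.2) :: t', ?_⟩
      rw [List.map_cons, ht']
  refine (h1.image FreeGroup.mk).mono ?_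
  intro g hg
  obtain ⟨L, hL, hS'⟩ := a1_over hg
  exact ⟨L, hS', hL⟩

end A1

end Pool.Agent.Helper33.QB
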